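import Mathlib
import Pool.Agent.MP_5f127b_co.Slice
import Pool.Agent.MP_5f127b_co.Binom

set_option autoImplicit false

/-!
The measure of the intersection of the iterated upper shadows of a family of measure one half in
the middle layer and of its complement is at least a constant times `ε`.
-/

namespace Pool.Agent.Results.MP_5f127b_co.LinearBound

open Finset Pool.Agent.MP_5f127b_co

/-- The layer of all `k`-element subsets of `[n]`. -/
def layer (n k : ℕ) : Finset (Finset (Fin n)) := powersetCard k univ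

/-- The `r`-fold upper shadow of a family `F` of `k`-element subsets of `[n]`: all
`(k + r)`-element subsets of `[n]` that contain a member of `F`. -/
def upperShadow {n : ℕ} (k r : ℕ) (F : Finset (Finset (Fin n))) : Finset (Finset (Fin n)) :=
  (layer n (k + r)).filter fun B => ∃ S ∈ F, S ⊆ B

/-- The uniform measure of a family inside the layer of all `j`-element subsets of `[n]`. -/
noncomputable def mu {n : ℕ} (j : ℕ) (F : Finset (Finset (Fin n))) : ℝ :=
  (F.card : ℝ) / (n.choose j : ℝ)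

theorem card_layer (n k : ℕ) : (layer n k).card = n.choose k := by
  rw [layer, card_powersetCard, card_univ, Fintype.card_fin]

theorem mem_layer {n k : ℕ} (B : Finset (Fin n)) : B ∈ layer n k ↔ B.card = k := by
  rw [layer, mem_powersetCard]
  exact ⟨fun h => h.2, fun h => ⟨subset_univ _, h⟩⟩

theorem sum_single {β : Type*} [DecidableEq β] [Fintype β] (m : ℕ) (S : Finset β)
    (hS : S.card = m) (F : Finset (Finset β)) (hF : ∀ B ∈ F, B.card = m) :
    (univ.filter fun e : β ≃ β => S.map e.toEmbedding ∈ F).card * (Fintype.card β).choose m =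
      F.card * (Fintype.card β).factorial := by
  have h1 : (univ.filter fun e : β ≃ β => S.map e.toEmbedding ∈ F).card =
      ∑ B ∈ F, (univ.filter fun e : β ≃ β => S.map e.toEmbedding = B).card := by
    rw [card_eq_sum_card_fiberwise (t := F) (f := fun e : β ≃ β => S.map e.toEmbedding)]
    · apply sum_congr rfl
      intro B hB
      congr 1
      ext e
      simp only [mem_filter, mem_univ, true_and]
      constructor
      · exact fun h => h.2
      · exact fun h => ⟨h ▸ hB, h⟩
    · intro e he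
      rw [mem_coe, mem_filter] at he
      exact he.2
  rw [h1, sum_mul]
  rw [sum_congr rfl fun B hB => card_filter_map_eq rfl m S hS B (hF B hB)]
  rw [sum_const, smul_eq_mul]

theorem local_lym {n k m : ℕ} (hkm : k ≤ m) (hmn : m ≤ n) (U A : Finset (Finset (Fin n)))
    (hU : ∀ B ∈ U, B.card = m) (hA : ∀ B ∈ A, B.card = k)
    (h : ∀ B ∈ U, ∀ S, S ⊆ B → S.card = k → S ∈ A) :
    (U.card : ℝ) / n.choose m ≤ (A.card : ℝ) / n.choose k := by
  obtain ⟨S0, -, hS0⟩ := exists_subset_card_eq (s := (univ : Finset (Fin n))) (n := m) (by simpa)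
  obtain ⟨D0, hD0S0, hD0⟩ := exists_subset_card_eq (s := S0) (n := k) (by omega)
  have h1 := sum_single m S0 hS0 U hU
  have h2 := sum_single k D0 hD0 A hA
  rw [Fintype.card_fin] at h1 h2
  have h3 : (univ.filter fun e : Fin n ≃ Fin n => S0.map e.toEmbedding ∈ U).card ≤
      (univ.filter fun e : Fin n ≃ Fin n => D0.map e.toEmbedding ∈ A).card := by
    apply card_le_card
    intro e he
    rw [mem_filter] at he ⊢
    exact ⟨mem_univ _, h _ he.2 _ (map_subset_map.2 hD0S0) (by rw [card_map, hD0])⟩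
  have hf : (0 : ℝ) < n.factorial := by exact_mod_cast Nat.factorial_pos _
  have hcm : (0 : ℝ) < n.choose m := by exact_mod_cast Nat.choose_pos hmn
  have hck : (0 : ℝ) < n.choose k := by exact_mod_cast Nat.choose_pos (hkm.trans hmn)
  have h1' : (((univ.filter fun e : Fin n ≃ Fin n => S0.map e.toEmbedding ∈ U).card : ℕ) : ℝ) *
      n.choose m = U.card * n.factorial := by exact_mod_cast h1
  have h2' : (((univ.filter fun e : Fin n ≃ Fin n => D0.map e.toEmbedding ∈ A).card : ℕ) : ℝ) *
      n.choose k = A.card * n.factorial := by exact_mod_cast h2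
  have h3' : (((univ.filter fun e : Fin n ≃ Fin n => S0.map e.toEmbedding ∈ U).card : ℕ) : ℝ) ≤
      (((univ.filter fun e : Fin n ≃ Fin n => D0.map e.toEmbedding ∈ A).card : ℕ) : ℝ) := by
    exact_mod_cast h3
  have e1 : (U.card : ℝ) / n.choose m =
      (((univ.filter fun e : Fin n ≃ Fin n => S0.map e.toEmbedding ∈ U).card : ℕ) : ℝ) /
        n.factorial := by
    rw [div_eq_div_iff hcm.ne' hf.ne', h1']
  have e2 : (A.card : ℝ) / n.choose k =
      (((univ.filter fun e : Fin n ≃ Fin n => D0.map e.toEmbedding ∈ A).card : ℕ) : ℝ) /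
        n.factorial := by
    rw [div_eq_div_iff hck.ne' hf.ne', h2']
  rw [e1, e2]
  exact div_le_div_of_nonneg_right h3' hf.le

theorem div_aux (a b c d : ℝ) (hc : c ≠ 0) : a * b / (c * d) = a / c * (b / c) * (c / d) := by
  by_cases hd : d = 0
  · simp [hd]
  · field_simp

theorem mu_nonneg {n : ℕ} (j : ℕ) (F : Finset (Finset (Fin n))) : 0 ≤ mu j F :=
  div_nonneg (Nat.cast_nonneg _) (Nat.cast_nonneg _)

/-- The main theorem for `n = k + k`. -/
theorem core (k : ℕ) (A : Finset (Finset (Fin (k + k)))) (hA : A ⊆ layer (k + k) k)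
    (hAmu : mu k A = 1 / 2) (ε : ℝ) (hε : 0 < ε) (hε8 : ε ≤ 1 / 8) :
    ε / 64 ≤ mu (k + ⌈ε * Real.sqrt ((k + k : ℕ) : ℝ)⌉₊)
      (upperShadow k ⌈ε * Real.sqrt ((k + k : ℕ) : ℝ)⌉₊ A ∩
        upperShadow k ⌈ε * Real.sqrt ((k + k : ℕ) : ℝ)⌉₊ (layer (k + k) k \ A)) := by
  set r := ⌈ε * Real.sqrt ((k + k : ℕ) : ℝ)⌉₊ with hr
  -- `k` is positive
  have hk : 1 ≤ k := by
    by_contra hk0
    have : k = 0 := by omega
    subst this
    unfold mu at hAmu
    simp only [Nat.choose_self, Nat.cast_one, div_one] at hAmu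
    have h2 : (2 * A.card : ℝ) = 1 := by rw [hAmu]; norm_num
    have h3 : 2 * A.card = 1 := by exact_mod_cast h2
    omega
  have hk0 : (0 : ℝ) < k := by exact_mod_cast hk
  have hsq : 0 < Real.sqrt ((k + k : ℕ) : ℝ) := by
    apply Real.sqrt_pos.2
    push_cast
    linarith
  have hr_lower : ε * Real.sqrt ((k + k : ℕ) : ℝ) ≤ r := Nat.le_ceil _
  have hr_upper : (r : ℝ) < ε * Real.sqrt ((k + k : ℕ) : ℝ) + 1 :=
    Nat.ceil_lt_add_one (mul_pos hε hsq).le
  have hr1 : 1 ≤ r := Nat.one_le_ceil_iff.2 (mul_pos hε hsq)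
  -- either `r = 1` or `r` is at most a small multiple of `√k`
  have hrcase : r = 1 ∨ 2 * r ^ 2 ≤ k := by
    rcases le_or_gt (ε * Real.sqrt ((k + k : ℕ) : ℝ)) 1 with h | h
    · left
      have : r ≤ 1 := by
        rw [hr]
        exact Nat.ceil_le.2 (by exact_mod_cast h)
      omega
    · right
      have h1 : (r : ℝ) ≤ 2 * (ε * Real.sqrt ((k + k : ℕ) : ℝ)) := by linarith
      have h2 : (r : ℝ) ^ 2 ≤ (2 * (ε * Real.sqrt ((k + k : ℕ) : ℝ))) ^ 2 :=
        pow_le_pow_left₀ (Nat.cast_nonneg r) h1 2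
      have h3 : (2 * (ε * Real.sqrt ((k + k : ℕ) : ℝ))) ^ 2 = 8 * ε ^ 2 * k := by
        rw [mul_pow, mul_pow, Real.sq_sqrt (by positivity)]
        push_cast
        ring
      have h4 : ε ^ 2 ≤ 1 / 64 := by nlinarith
      have h5 : (2 * (r : ℝ) ^ 2) ≤ k := by nlinarith
      exact_mod_cast h5
  have hrk : r ≤ k := by
    rcases hrcase with h | h
    · omega
    · nlinarith
  -- the two families
  set m := k + r with hm
  set Ac := layer (k + k) k \ A with hAc
  set L := layer (k + k) m with hL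
  set U := L.filter fun B => ¬ ∃ S ∈ Ac, S ⊆ B with hU
  set W := L.filter fun B => ¬ ∃ S ∈ A, S ⊆ B with hW
  have hLmem : ∀ B, B ∈ L ↔ B.card = m := fun B => mem_layer B
  have hlay : ∀ B : Finset (Fin (k + k)), B ∈ layer (k + k) k ↔ B.card = k :=
    fun B => mem_layer B
  have hUcard : ∀ B ∈ U, B.card = m := fun B hB => (hLmem B).1 (mem_filter.1 hB).1
  have hWcard : ∀ B ∈ W, B.card = m := fun B hB => (hLmem B).1 (mem_filter.1 hB).1
  have hUA : ∀ B ∈ U, ∀ S, S ⊆ B → S.card = k → S ∈ A := by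
    intro B hB S hSB hS
    by_contra hSA
    exact (mem_filter.1 hB).2 ⟨S, mem_sdiff.2 ⟨(hlay S).2 hS, hSA⟩, hSB⟩
  have hWA : ∀ B ∈ W, ∀ S, S ⊆ B → S.card = k → S ∈ Ac := by
    intro B hB S hSB hS
    rw [hAc, mem_sdiff]
    refine ⟨(hlay S).2 hS, fun hSA => (mem_filter.1 hB).2 ⟨S, hSA, hSB⟩⟩
  have hsep : ∀ B ∈ U, ∀ B' ∈ W, r < (B \ B').card := by
    intro B hB B' hB'
    by_contra hle
    rw [not_lt] at hle
    have h1 := card_sdiff_add_card_inter B B'
    have h2 := hUcard B hB
    have h3 : k ≤ (B ∩ B').card := by omega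
    obtain ⟨S, hS, hSk⟩ := exists_subset_card_eq h3
    have h4 := hUA B hB S (hS.trans inter_subset_left) hSk
    have h5 := hWA B' hB' S (hS.trans inter_subset_right) hSk
    rw [hAc, mem_sdiff] at h5
    exact h5.2 h4
  -- measures of the two families
  have hAcard : ∀ B ∈ A, B.card = k := fun B hB => (hlay B).1 (hA hB)
  have hAccard : ∀ B ∈ Ac, B.card = k := fun B hB => (hlay B).1 (mem_sdiff.1 hB).1
  have hmn : m ≤ k + k := by omega
  have hU12 : (U.card : ℝ) / (k + k).choose m ≤ 1 / 2 := by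
    rw [← hAmu]
    exact local_lym (by omega) hmn U A hUcard hAcard hUA
  have hchk : (0 : ℝ) < (k + k).choose k := by exact_mod_cast Nat.choose_pos (by omega)
  have hchm : (0 : ℝ) < (k + k).choose m := by exact_mod_cast Nat.choose_pos hmn
  have hAc12 : (Ac.card : ℝ) / (k + k).choose k = 1 / 2 := by
    have h1 : (Ac.card : ℝ) = (k + k).choose k - A.card := by
      rw [hAc, card_sdiff_of_subset hA, Nat.cast_sub (card_le_card hA), card_layer]
    unfold mu at hAmu
    rw [h1, sub_div, div_self hchk.ne', hAmu]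
    norm_num
  have hW12 : (W.card : ℝ) / (k + k).choose m ≤ 1 / 2 := by
    rw [← hAc12]
    exact local_lym (by omega) hmn W Ac hWcard hAccard hWA
  -- the boundary
  set Bd := upperShadow k r A ∩ upperShadow k r Ac with hBd
  have hBdeq : Bd = L \ (U ∪ W) := by
    ext B
    simp only [hBd, hU, hW, upperShadow, mem_inter, mem_filter, mem_sdiff, mem_union]
    constructor
    · rintro ⟨⟨h1, h2⟩, -, h3⟩
      refine ⟨h1, ?_⟩
      rintro (⟨-, h4⟩ | ⟨-, h4⟩)
      · exact h4 h3
      · exact h4 h2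
    · rintro ⟨h1, h2⟩
      by_contra h3
      apply h2
      by_cases h4 : ∃ S ∈ A, S ⊆ B
      · left
        refine ⟨h1, fun h5 => h3 ⟨⟨h1, h4⟩, h1, h5⟩⟩
      · right
        exact ⟨h1, h4⟩
  have hLcard : (L.card : ℝ) = (k + k).choose m := by rw [hL, card_layer]
  have hBdcard : ((k + k).choose m : ℝ) - U.card - W.card ≤ Bd.card := by
    have h1 : L.card ≤ Bd.card + (U ∪ W).card := by
      rw [hBdeq]
      have := card_le_card_sdiff_add_card (s := L) (t := U ∪ W)
      exact this
    have h2 := card_union_le U W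
    have h3 : (L.card : ℝ) ≤ Bd.card + (U.card + W.card) := by
      exact_mod_cast h1.trans (Nat.add_le_add_left h2 _)
    linarith
  have hmuBd : 1 - (U.card : ℝ) / (k + k).choose m - (W.card : ℝ) / (k + k).choose m ≤
      mu m Bd := by
    unfold mu
    rw [le_div_iff₀ hchm]
    refine le_trans (le_of_eq ?_) hBdcard
    field_simp
  -- use the inequality for separated families
  have hcardβ : Fintype.card (Fin (k + k)) = 2 * (k - r) + 2 * r := by
    rw [Fintype.card_fin]; omega
  have hNR : (k - r) + 2 * r = m := by omega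
  have hs := separated_slice (N := k - r) (R := 2 * r) hcardβ r U W
    (fun B hB => by rw [hNR]; exact hUcard B hB) (fun B hB => by rw [hNR]; exact hWcard B hB) hsep
  rw [Fintype.card_fin, hNR] at hs
  have hd := density k r hk hrk hrcase
  rw [two_mul k, ← hm] at hd
  -- conclude
  have hdpos : (0 : ℝ) < (m.choose (m / 2) : ℝ) * 2 ^ (k - r) := by
    apply mul_pos _ (by positivity)
    exact_mod_cast Nat.choose_pos (Nat.div_le_self m 2)
  have hsN : Real.sqrt ((k - r : ℕ) : ℝ) ≤ Real.sqrt ((k + k : ℕ) : ℝ) := by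
    apply Real.sqrt_le_sqrt
    exact_mod_cast (by omega : k - r ≤ k + k)
  have hBd0 : 0 ≤ mu m Bd := mu_nonneg m Bd
  rcases le_or_gt (1 / 4 : ℝ) (mu m Bd) with hq | hq
  · linarith
  · set u := (U.card : ℝ) / (k + k).choose m with hu
    set w := (W.card : ℝ) / (k + k).choose m with hw
    have hu4 : 1 / 4 ≤ u := by linarith
    have hw4 : 1 / 4 ≤ w := by linarith
    have huw : 1 / 16 ≤ u * w := by nlinarith
    have e1 : (U.card : ℝ) * W.card / ((k + k).choose m * (m.choose (m / 2) * 2 ^ (k - r))) =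
        u * w * ((k + k).choose m / (m.choose (m / 2) * 2 ^ (k - r))) := by
      rw [hu, hw]
      exact div_aux _ _ _ _ hchm.ne'
    have e2 : 1 / 4 ≤ ((k + k).choose m : ℝ) / (m.choose (m / 2) * 2 ^ (k - r)) := by
      rw [le_div_iff₀ hdpos]
      linarith
    rw [e1] at hs
    have hroom : 0 ≤ 1 - u - w := by
      linarith
    have h1 : (r : ℝ) * (1 / 64) ≤
        (r : ℝ) * (u * w * ((k + k).choose m / (m.choose (m / 2) * 2 ^ (k - r)))) := by
      apply mul_le_mul_of_nonneg_left _ (Nat.cast_nonneg r)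
      nlinarith
    have h2 : Real.sqrt ((k - r : ℕ) : ℝ) * (1 - u - w) ≤
        Real.sqrt ((k + k : ℕ) : ℝ) * mu m Bd := by
      calc Real.sqrt ((k - r : ℕ) : ℝ) * (1 - u - w)
          ≤ Real.sqrt ((k + k : ℕ) : ℝ) * (1 - u - w) := mul_le_mul_of_nonneg_right hsN hroom
        _ ≤ Real.sqrt ((k + k : ℕ) : ℝ) * mu m Bd := mul_le_mul_of_nonneg_left hmuBd hsq.le
    have h3 : ε * Real.sqrt ((k + k : ℕ) : ℝ) * (1 / 64) ≤ (r : ℝ) * (1 / 64) :=
      mul_le_mul_of_nonneg_right hr_lower (by norm_num)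
    have h4 : Real.sqrt ((k + k : ℕ) : ℝ) * (ε / 64) ≤
        Real.sqrt ((k + k : ℕ) : ℝ) * mu m Bd := by
      calc Real.sqrt ((k + k : ℕ) : ℝ) * (ε / 64)
          = ε * Real.sqrt ((k + k : ℕ) : ℝ) * (1 / 64) := by ring
        _ ≤ _ := h3.trans (h1.trans (hs.trans h2))
    exact le_of_mul_le_mul_left h4 hsq

/-- **Main theorem.** For every even `n`, every family `A` of `n/2`-element subsets of `[n]` of
measure `1/2` and every `0 < ε ≤ 1/8`, with `r = ⌈ε √n⌉` the intersection of the `r`-fold upper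
shadows of `A` and of its complement in the middle layer has measure at least `ε / 64`. -/
theorem result :
    ∀ n : ℕ, Even n → ∀ A : Finset (Finset (Fin n)), A ⊆ layer n (n / 2) →
      mu (n / 2) A = 1 / 2 → ∀ ε : ℝ, 0 < ε → ε ≤ 1 / 8 →
      ε / 64 ≤ mu (n / 2 + ⌈ε * Real.sqrt n⌉₊)
        (upperShadow (n / 2) ⌈ε * Real.sqrt n⌉₊ A ∩
          upperShadow (n / 2) ⌈ε * Real.sqrt n⌉₊ (layer n (n / 2) \ A)) := by
  intro n hn A hA hAmu ε hε hε8
  obtain ⟨k, rfl⟩ := hn
  have hk2 : (k + k) / 2 = k := by omega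
  rw [hk2] at hA hAmu ⊢
  exact core k A hA hAmu ε hε hε8

end Pool.Agent.Results.MP_5f127b_co.LinearBound
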